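import Pool.Agent.Helper805.ChainM.All
set_option autoImplicit false

/-! MP_6489b8_al: strictness of every step of the chain `Alt_m(Φ)`, when `210` is not nilpotent in `Φ`. -/

namespace Pool.Agent.Results.MP_6489b8_al.AllSteps
open Pool.Agent.Helper805.Chain.Var

/-- For every commutative ring `Φ` in which `210` is not nilpotent (in particular `Φ = ℤ`, `Φ = ℚ`, and every field of
characteristic different from `2, 3, 5, 7`) and every `m ≥ 4` the inclusion `Alt_m(Φ) ⊆ Alt_{m+1}(Φ)` of varieties is
strict. -/
theorem result (Φ : Type) [CommRing Φ] (hΦ : ¬ IsNilpotent (210 : Φ)) (m : ℕ) (hm : 4 ≤ m) : Strict Φ m :=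
  Pool.Agent.Helper805.ChainM.All.strict Φ hΦ m hm

end Pool.Agent.Results.MP_6489b8_al.AllSteps
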